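import Pool.Agent.H570R2.ZamAsymp

/-!
`ZAM(INDEX_n) ≤ 2 ^ (54 √(log₂ n · log₂ log₂ n)) = n ^ o(1)`, so the conjectured linear lower bound
is false.
-/

namespace Pool.Agent.Results.MP_63af43_lc.IndexZamSubpoly

open Pool.Agent.H570R2 Filter

/-- `INDEX_n : {0,1}^n × [n] → {0,1}`, `INDEX_n(x, y) = x_y`. -/
def INDEX (n : ℕ) (x : Fin n → Bool) (y : Fin n) : Bool := x y

theorem index_le (n : ℕ) (hn : 4 ≤ n) :
    ZAM (INDEX n) ≤
      ((⌊(2 : ℝ) ^ (54 * Real.sqrt (Real.logb 2 n * Real.logb 2 (Real.logb 2 n)))⌋₊ : ℕ) : ℕ∞) := by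
  refine ZAM_le_of_card_le (INDEX n) n hn ?_
  simp

theorem index_le_rpow (ε : ℝ) (hε : 0 < ε) : ∀ᶠ n : ℕ in atTop,
    ZAM (INDEX n) ≤ ((⌊(n : ℝ) ^ ε⌋₊ : ℕ) : ℕ∞) := by
  have h0 : Tendsto (fun n : ℕ => Real.logb 2 (n : ℝ)) atTop atTop :=
    (Real.tendsto_logb_atTop (by norm_num)).comp tendsto_natCast_atTop_atTop
  have h1 := h0.eventually (eventually_sqrt_le 54 ε (by norm_num) hε)
  filter_upwards [h1, eventually_ge_atTop 4] with n hn hn4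
  refine (index_le n hn4).trans ?_
  rw [Nat.cast_le]
  apply Nat.floor_le_floor
  have hn0 : (0 : ℝ) < n := by
    have : (4 : ℝ) ≤ n := by exact_mod_cast hn4
    linarith
  calc (2 : ℝ) ^ (54 * Real.sqrt (Real.logb 2 n * Real.logb 2 (Real.logb 2 n)))
      ≤ (2 : ℝ) ^ (ε * Real.logb 2 n) :=
        Real.rpow_le_rpow_of_exponent_le (by norm_num) hn
    _ = (n : ℝ) ^ ε := by
        rw [mul_comm ε, Real.rpow_mul (by norm_num), Real.rpow_logb (by norm_num) (by norm_num) hn0]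

/-- The conjecture `ZAM(INDEX_n) = Θ(n)` fails: for every `n ≥ 4`,
`ZAM(INDEX_n) ≤ 2 ^ (54 √(log₂ n · log₂ log₂ n))`; for every `ε > 0` this is at most `n ^ ε` for all
large `n`; and for every `c > 0` the bound `ZAM(INDEX_n) ≥ c n` fails for all large `n`. -/
theorem result :
    (∀ n : ℕ, 4 ≤ n →
      ZAM (INDEX n) ≤
        ((⌊(2 : ℝ) ^ (54 * Real.sqrt (Real.logb 2 n * Real.logb 2 (Real.logb 2 n)))⌋₊ : ℕ) :
          ℕ∞)) ∧
    (∀ ε : ℝ, 0 < ε → ∀ᶠ n : ℕ in atTop,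
      ZAM (INDEX n) ≤ ((⌊(n : ℝ) ^ ε⌋₊ : ℕ) : ℕ∞)) ∧
    (∀ c : ℝ, 0 < c → ∀ᶠ n : ℕ in atTop,
      ∃ k : ℕ, ZAM (INDEX n) = (k : ℕ∞) ∧ (k : ℝ) < c * n) := by
  refine ⟨index_le, index_le_rpow, ?_⟩
  intro c hc
  have h1 := index_le_rpow (1 / 2) (by norm_num)
  have h2 : ∀ᶠ n : ℕ in atTop, 1 / c < Real.sqrt (n : ℝ) :=
    (Real.tendsto_sqrt_atTop.comp tendsto_natCast_atTop_atTop).eventually
      (eventually_gt_atTop (1 / c))
  filter_upwards [h1, h2, eventually_ge_atTop 4] with n hn hn2 hn4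
  have hfin : ZAM (INDEX n) ≠ ⊤ := by
    intro htop
    rw [htop] at hn
    exact absurd hn (by simp)
  obtain ⟨k, hk⟩ := ENat.ne_top_iff_exists.1 hfin
  refine ⟨k, hk.symm, ?_⟩
  rw [← hk, Nat.cast_le] at hn
  have hn0 : (0 : ℝ) < n := by
    have : (4 : ℝ) ≤ n := by exact_mod_cast hn4
    linarith
  have hk1 : (k : ℝ) ≤ (n : ℝ) ^ (1 / 2 : ℝ) := by
    have h3 : ((⌊(n : ℝ) ^ (1 / 2 : ℝ)⌋₊ : ℕ) : ℝ) ≤ (n : ℝ) ^ (1 / 2 : ℝ) :=
      Nat.floor_le (by positivity)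
    have h4 : (k : ℝ) ≤ ((⌊(n : ℝ) ^ (1 / 2 : ℝ)⌋₊ : ℕ) : ℝ) := by exact_mod_cast hn
    linarith
  rw [← Real.sqrt_eq_rpow] at hk1
  have hs : 0 < Real.sqrt (n : ℝ) := Real.sqrt_pos.2 hn0
  have h5 : Real.sqrt (n : ℝ) < c * n := by
    have h6 : 1 < c * Real.sqrt (n : ℝ) := by
      rw [div_lt_iff₀ hc] at hn2
      linarith
    calc Real.sqrt (n : ℝ) = 1 * Real.sqrt (n : ℝ) := by ring
      _ < (c * Real.sqrt (n : ℝ)) * Real.sqrt (n : ℝ) := by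
          exact mul_lt_mul_of_pos_right h6 hs
      _ = c * n := by
          rw [mul_assoc, Real.mul_self_sqrt hn0.le]
  linarith

end Pool.Agent.Results.MP_63af43_lc.IndexZamSubpoly
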